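import Pool.Agent.H615R3.RecDefs

/-! Delta-star recurrence passes to the inverse. -/

set_option autoImplicit false

namespace Pool.Agent.H898D

open Filter Topology Set Pool.Agent.H615R3

/-- a Δ-set: all differences `s_j - s_i`, `i < j`, of a strictly increasing sequence of positive
integers -/
def IsDeltaSet (D : Set ℕ) : Prop :=
  ∃ s : ℕ → ℕ, StrictMono s ∧ (∀ i, 0 < s i) ∧ D = {d | ∃ i j, i < j ∧ d = s j - s i}

/-- `A` is `Δ*`: it meets every Δ-set -/
def DeltaStar (A : Set ℕ) : Prop := ∀ D, IsDeltaSet D → (A ∩ D).Nonempty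

/-- `x` is `Δ*`-recurrent: all return sets are `Δ*` -/
def IsDRec {X : Type*} [TopologicalSpace X] (T : X → X) (x : X) : Prop :=
  ∀ U ∈ 𝓝 x, DeltaStar (retSet T x U)

theorem DeltaStar.get {A : Set ℕ} (h : DeltaStar A) (s : ℕ → ℕ) (hs : StrictMono s) :
    ∃ i j, i < j ∧ s j - s i ∈ A := by
  obtain ⟨d, hd, i, j, hij, rfl⟩ := h {d | ∃ i j, i < j ∧ d = (s j + 1) - (s i + 1)}
    ⟨fun i => s i + 1, fun i j hij => by have := hs hij; show s i + 1 < s j + 1; omega,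
      fun i => Nat.succ_pos _, rfl⟩
  refine ⟨i, j, hij, ?_⟩
  rwa [Nat.add_sub_add_right] at hd

theorem DeltaStar.gap {A : Set ℕ} (h : DeltaStar A) : ∃ g : ℕ, ∀ n, ∃ a ∈ A, n < a ∧ a ≤ n + g := by
  by_contra hcon
  push Not at hcon
  choose n hn using hcon
  obtain ⟨s, hs0, hs1⟩ : ∃ s : ℕ → ℕ, s 0 = 1 ∧ ∀ k, s (k + 1) = n (s k) + s k + 1 :=
    ⟨fun k => Nat.rec 1 (fun _ t => n t + t + 1) k, rfl, fun k => rfl⟩
  have hs : StrictMono s := strictMono_nat_of_lt_succ fun k => by rw [hs1]; omega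
  obtain ⟨i, j, hij, hA⟩ := h.get s hs
  obtain ⟨k, rfl⟩ : ∃ k, j = k + 1 := ⟨j - 1, by omega⟩
  have h1 : s i ≤ s k := hs.monotone (by omega)
  have h2 : 1 ≤ s i := by rw [← hs0]; exact hs.monotone (Nat.zero_le _)
  have h3 := hn (s k) _ hA
  rw [hs1] at h3
  have := h3 (by omega)
  omega

theorem DeltaStar.diff {A : Set ℕ} (h : DeltaStar A) (s : ℕ → ℕ) (hs : StrictMono s) :
    ∃ i j, i < j ∧ ∃ a ∈ A, ∃ b ∈ A, a = b + (s j - s i) := by
  obtain ⟨g, hg⟩ := h.gap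
  choose a haA ha1 ha2 using hg
  obtain ⟨i, j, hij, he⟩ := Finite.exists_ne_map_eq_of_infinite
    (fun i : ℕ => (⟨a (s i) - s i, by have := ha2 (s i); omega⟩ : Fin (g + 1)))
  have he' : a (s i) - s i = a (s j) - s j := congrArg Fin.val he
  rcases lt_or_gt_of_ne hij with h1 | h1
  · refine ⟨i, j, h1, a (s j), haA _, a (s i), haA _, ?_⟩
    have := hs h1
    have := ha1 (s i)
    have := ha1 (s j)
    omega
  · refine ⟨j, i, h1, a (s i), haA _, a (s j), haA _, ?_⟩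
    have := hs h1
    have := ha1 (s i)
    have := ha1 (s j)
    omega

variable {X : Type*} [TopologicalSpace X]

theorem zcont (e : Equiv.Perm X) (hT : Continuous e) (hS : Continuous e.symm) (m : ℤ) :
    Continuous ⇑(e ^ m) := by
  cases m with
  | ofNat n =>
    have : ⇑(e ^ (Int.ofNat n)) = e^[n] := by
      rw [Int.ofNat_eq_natCast, zpow_natCast, Equiv.Perm.iterate_eq_pow]
    rw [this]; exact hT.iterate n
  | negSucc n =>
    have : ⇑(e ^ (Int.negSucc n)) = e.symm^[n + 1] := by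
      rw [zpow_negSucc, ← inv_pow, ← Equiv.Perm.iterate_eq_pow]
      rfl
    rw [this]; exact hS.iterate (n + 1)

omit [TopologicalSpace X] in
theorem zit (e : Equiv.Perm X) (n : ℕ) (m : ℤ) (x : X) : (e ^ m) (e^[n] x) = (e ^ (m + n)) x := by
  rw [zpow_add, Equiv.Perm.mul_apply, zpow_natCast, Equiv.Perm.iterate_eq_pow]

theorem key [T1Space X] (e : Equiv.Perm X) (hT : Continuous e) (hS : Continuous e.symm) (x : X)
    (hx : IsDRec e x) (hnp : ∀ n, 1 ≤ n → e^[n] x ≠ x) (f : X → ℝ) (hf : Continuous f) :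
    ∃ V ∈ 𝓝 x, ∀ a ∈ retSet e x V, ∀ b ∈ retSet e x V,
      |f ((e ^ ((b : ℤ) - a)) x) - f x| < 2 := by
  by_contra hcon
  push Not at hcon
  obtain ⟨V, hVd⟩ : ∃ V : ℕ → ℕ × ℕ × Finset ℤ → Set X, V = fun k σ =>
    {y | (∀ m ∈ σ.2.2, |f ((e ^ m) y) - f ((e ^ m) x)| < (1 / 2 : ℝ) ^ (k + 2)) ∧
      ∀ n ∈ Finset.Icc 1 σ.2.1, y ≠ e^[n] x} := ⟨_, rfl⟩
  have hV : ∀ k σ, V k σ ∈ 𝓝 x := by
    intro k σ
    rw [hVd]
    apply Filter.inter_mem
    · show {y | ∀ m ∈ σ.2.2, |f ((e ^ m) y) - f ((e ^ m) x)| < (1 / 2 : ℝ) ^ (k + 2)} ∈ 𝓝 x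
      have : ∀ᶠ y in 𝓝 x, ∀ m ∈ σ.2.2, |f ((e ^ m) y) - f ((e ^ m) x)| < (1 / 2 : ℝ) ^ (k + 2) := by
        rw [Filter.eventually_all_finset]
        intro m _
        have h1 : Continuous fun y => |f ((e ^ m) y) - f ((e ^ m) x)| :=
          ((hf.comp (zcont e hT hS m)).sub continuous_const).abs
        have h2 := h1.continuousAt (x := x)
        have h3 : |f ((e ^ m) x) - f ((e ^ m) x)| < (1 / 2 : ℝ) ^ (k + 2) := by
          rw [sub_self, abs_zero]; positivity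
        exact h2.eventually (gt_mem_nhds h3)
      exact this
    · have : ∀ᶠ y in 𝓝 x, ∀ n ∈ Finset.Icc 1 σ.2.1, y ≠ e^[n] x := by
        rw [Filter.eventually_all_finset]
        intro n hn
        rw [Finset.mem_Icc] at hn
        exact (isOpen_ne (x := e^[n] x)).mem_nhds (hnp n hn.1).symm
      exact this
  have hc := fun k σ => hcon (V k σ) (hV k σ)
  choose a ha b hb hab using hc
  obtain ⟨st, hst0, hst1⟩ : ∃ st : ℕ → ℕ × ℕ × Finset ℤ, st 0 = (0, 0, ∅) ∧ ∀ k, st (k + 1) =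
      ((st k).1 + b k (st k), (st k).1 + a k (st k),
        insert ((b k (st k) : ℤ) - a k (st k)) ((st k).2.2.image (· + (b k (st k) : ℤ)))) :=
    ⟨fun k => Nat.rec (0, 0, ∅) (fun k σ => (σ.1 + b k σ, σ.1 + a k σ,
        insert ((b k σ : ℤ) - a k σ) (σ.2.2.image (· + (b k σ : ℤ))))) k, rfl, fun k => rfl⟩
  have hP : ∀ k, (st (k + 1)).1 = (st k).1 + b k (st k) := fun k => by rw [hst1]
  have hQ : ∀ k, (st (k + 1)).2.1 = (st k).1 + a k (st k) := fun k => by rw [hst1]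
  have hQm : ∀ k, (st k).2.1 < (st (k + 1)).2.1 := by
    intro k
    rw [hQ]
    have h1 := ha k (st k)
    by_contra h2
    have h3 : e^[a k (st k)] x ∈ V k (st k) := h1.2
    rw [hVd] at h3
    exact h3.2 (a k (st k)) (Finset.mem_Icc.2 ⟨h1.1, by omega⟩) rfl
  have hmem : ∀ i k, i < k → (((st k).1 : ℤ) - ((st (i + 1)).2.1 : ℤ)) ∈ (st k).2.2 := by
    intro i k hik
    induction k, hik using Nat.le_induction with
    | base =>
      rw [hP, hQ, hst1]
      apply Finset.mem_insert.2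
      left
      push_cast
      ring
    | succ k hk ih =>
      rw [hP, hst1 k]
      apply Finset.mem_insert.2
      right
      apply Finset.mem_image.2
      refine ⟨_, ih, ?_⟩
      push_cast
      ring
  have hstep : ∀ i k, i < k → |f ((e ^ (((st (k + 1)).1 : ℤ) - ((st (i + 1)).2.1 : ℤ))) x) -
      f ((e ^ (((st k).1 : ℤ) - ((st (i + 1)).2.1 : ℤ))) x)| < (1 / 2 : ℝ) ^ (k + 2) := by
    intro i k hik
    have h1 : e^[b k (st k)] x ∈ V k (st k) := (hb k (st k)).2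
    rw [hVd] at h1
    have h2 := h1.1 _ (hmem i k hik)
    rw [zit] at h2
    have h3 : ((st k).1 : ℤ) - ((st (i + 1)).2.1 : ℤ) + (b k (st k) : ℤ) =
        ((st (k + 1)).1 : ℤ) - ((st (i + 1)).2.1 : ℤ) := by rw [hP]; push_cast; ring
    rwa [h3] at h2
  have hlast : ∀ i k, i < k → |f ((e ^ (((st (k + 1)).2.1 : ℤ) - ((st (i + 1)).2.1 : ℤ))) x) -
      f ((e ^ (((st k).1 : ℤ) - ((st (i + 1)).2.1 : ℤ))) x)| < (1 / 2 : ℝ) ^ (k + 2) := by
    intro i k hik
    have h1 : e^[a k (st k)] x ∈ V k (st k) := (ha k (st k)).2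
    rw [hVd] at h1
    have h2 := h1.1 _ (hmem i k hik)
    rw [zit] at h2
    have h3 : ((st k).1 : ℤ) - ((st (i + 1)).2.1 : ℤ) + (a k (st k) : ℤ) =
        ((st (k + 1)).2.1 : ℤ) - ((st (i + 1)).2.1 : ℤ) := by rw [hQ k]; push_cast; ring
    rwa [h3] at h2
  have hbad : ∀ i, 2 ≤ |f ((e ^ (((st (i + 1)).1 : ℤ) - ((st (i + 1)).2.1 : ℤ))) x) - f x| := by
    intro i
    have h1 := hab i (st i)
    have h3 : ((st (i + 1)).1 : ℤ) - ((st (i + 1)).2.1 : ℤ) = (b i (st i) : ℤ) - a i (st i) := by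
      rw [hP, hQ]; push_cast; ring
    rwa [h3]
  have htel : ∀ i k, i < k → |f ((e ^ (((st k).1 : ℤ) - ((st (i + 1)).2.1 : ℤ))) x) -
      f ((e ^ (((st (i + 1)).1 : ℤ) - ((st (i + 1)).2.1 : ℤ))) x)| ≤ 1 / 2 - (1 / 2 : ℝ) ^ (k + 1) := by
    intro i k hik
    induction k, hik using Nat.le_induction with
    | base =>
      rw [sub_self, abs_zero]
      have : (1 / 2 : ℝ) ^ (i.succ + 1) ≤ 1 / 2 := by
        calc (1 / 2 : ℝ) ^ (i.succ + 1) ≤ (1 / 2 : ℝ) ^ 1 :=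
              pow_le_pow_of_le_one (by norm_num) (by norm_num) (by omega)
          _ = 1 / 2 := pow_one _
      linarith
    | succ k hk ih =>
      have h1 := hstep i k hk
      have h2 := abs_sub_le (f ((e ^ (((st (k + 1)).1 : ℤ) - ((st (i + 1)).2.1 : ℤ))) x))
        (f ((e ^ (((st k).1 : ℤ) - ((st (i + 1)).2.1 : ℤ))) x))
        (f ((e ^ (((st (i + 1)).1 : ℤ) - ((st (i + 1)).2.1 : ℤ))) x))
      have h3 : (1 / 2 : ℝ) ^ (k + 1) = 2 * (1 / 2 : ℝ) ^ (k + 2) := by ring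
      have h4 : (1 / 2 : ℝ) ^ (k + 1 + 1) = (1 / 2 : ℝ) ^ (k + 2) := by ring
      rw [h4]
      linarith
  have hU : {y | |f y - f x| < 1} ∈ 𝓝 x := by
    have h1 : Continuous fun y => |f y - f x| := (hf.sub continuous_const).abs
    have h2 := h1.continuousAt (x := x)
    have h3 : |f x - f x| < (1 : ℝ) := by rw [sub_self, abs_zero]; exact one_pos
    exact h2.eventually (gt_mem_nhds h3)
  obtain ⟨i, j, hij, hm⟩ := (hx _ hU).get (fun k => (st (k + 1)).2.1)
    (strictMono_nat_of_lt_succ fun k => hQm (k + 1))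
  have hQmono : StrictMono fun k => (st k).2.1 := strictMono_nat_of_lt_succ hQm
  have hlt : (st (i + 1)).2.1 < (st (j + 1)).2.1 := hQmono (by omega)
  have h1 : |f (e^[(st (j + 1)).2.1 - (st (i + 1)).2.1] x) - f x| < 1 := hm.2
  have h2 : e^[(st (j + 1)).2.1 - (st (i + 1)).2.1] x =
      (e ^ (((st (j + 1)).2.1 : ℤ) - ((st (i + 1)).2.1 : ℤ))) x := by
    have := zit e ((st (j + 1)).2.1 - (st (i + 1)).2.1) 0 x
    rw [zpow_zero, Equiv.Perm.one_apply] at this
    rw [this, zero_add, Nat.cast_sub hlt.le]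
  rw [h2] at h1
  have h3 := hlast i j hij
  have h4 := htel i j hij
  have h5 := hbad i
  have h6 : (1 / 2 : ℝ) ^ (j + 2) ≤ 1 / 4 := by
    calc (1 / 2 : ℝ) ^ (j + 2) ≤ (1 / 2 : ℝ) ^ 2 :=
          pow_le_pow_of_le_one (by norm_num) (by norm_num) (by omega)
      _ = 1 / 4 := by norm_num
  have h7 : (0 : ℝ) < (1 / 2 : ℝ) ^ (j + 1) := by positivity
  have h8 := abs_sub_le (f ((e ^ (((st (i + 1)).1 : ℤ) - ((st (i + 1)).2.1 : ℤ))) x))
    (f ((e ^ (((st j).1 : ℤ) - ((st (i + 1)).2.1 : ℤ))) x)) (f x)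
  have h9 := abs_sub_le (f ((e ^ (((st j).1 : ℤ) - ((st (i + 1)).2.1 : ℤ))) x))
    (f ((e ^ (((st (j + 1)).2.1 : ℤ) - ((st (i + 1)).2.1 : ℤ))) x)) (f x)
  rw [abs_sub_comm] at h3 h4
  linarith

/-- `Δ*`-recurrence of a point passes from a homeomorphism to its inverse -/
theorem IsDRec.inv [T1Space X] [CompletelyRegularSpace X] (e : Equiv.Perm X) (hT : Continuous e)
    (hS : Continuous e.symm) (x : X) (hx : IsDRec e x) : IsDRec e.symm x := by
  rintro U hU D ⟨s, hs, -, rfl⟩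
  by_cases hp : ∃ n, 1 ≤ n ∧ e^[n] x = x
  · obtain ⟨n, hn, hnx⟩ := hp
    have hnx' : e.symm^[n] x = x := by
      conv_lhs => rw [← hnx]
      have := iter_left (S := e.symm) (T := e) e.symm_apply_apply (le_refl n) x
      rwa [Nat.sub_self] at this
    obtain ⟨i, j, hij, he⟩ := Finite.exists_ne_map_eq_of_infinite
      (fun i : ℕ => (⟨s i % n, Nat.mod_lt _ (by omega)⟩ : Fin n))
    have he' : s i % n = s j % n := congrArg Fin.val he
    have main : ∀ i j, i < j → s i % n = s j % n →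
        (retSet e.symm x U ∩ {d | ∃ i j, i < j ∧ d = s j - s i}).Nonempty := by
      intro i j hij he'
      have hlt := hs hij
      refine ⟨s j - s i, ⟨by omega, ?_⟩, i, j, hij, rfl⟩
      obtain ⟨t, ht⟩ : n ∣ s j - s i := (Nat.modEq_iff_dvd' hlt.le).1 he'
      rw [ht, Function.iterate_mul]
      have : (e.symm^[n])^[t] x = x := Function.iterate_fixed hnx' t
      rw [this]
      exact mem_of_mem_nhds hU
    rcases lt_or_gt_of_ne hij with h1 | h1
    · exact main i j h1 he'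
    · exact main j i h1 he'.symm
  · push Not at hp
    obtain ⟨f, hf, hf0, hf1⟩ := CompletelyRegularSpace.completely_regular x (interior U)ᶜ
      isOpen_interior.isClosed_compl (fun h => h (mem_interior_iff_mem_nhds.2 hU))
    obtain ⟨V, hV, hVk⟩ := key e hT hS x hx hp (fun y => 2 * (f y : ℝ)) (by fun_prop)
    obtain ⟨i, j, hij, a, ha, b, hb, hab⟩ := (hx V hV).diff s hs
    have hlt := hs hij
    refine ⟨s j - s i, ⟨by omega, ?_⟩, i, j, hij, rfl⟩
    have h1 := hVk a ha b hb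
    have h2 : (e ^ ((b : ℤ) - a)) x = e.symm^[s j - s i] x := by
      have : (b : ℤ) - a = -((s j - s i : ℕ) : ℤ) := by rw [hab]; push_cast; ring
      rw [this, zpow_neg, zpow_natCast, ← inv_pow, ← Equiv.Perm.iterate_eq_pow]
      rfl
    rw [h2, hf0] at h1
    by_contra h3
    have h4 : e.symm^[s j - s i] x ∈ (interior U)ᶜ := fun h5 => h3 (interior_subset h5)
    have h5 := hf1 h4
    rw [h5] at h1
    norm_num at h1

end Pool.Agent.H898D
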